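import Mathlib
import Pool.Agent.helper59.DelayedDefs
import Pool.Agent.helper59.DelayedLower
import Pool.Agent.helper6.DelayedWF

set_option autoImplicit false

open scoped ENNReal NNReal
open Pool.Agent.helper59.DelayedServer

universe u

namespace Pool.Agent.Results.MP_836b05_lc.FewPoints

/-- For `k ≥ 2` and every metric space `M` the competitiveness of version (b) of the delayed
`k`-server problem is at most `min (2 k, |M|) - 1`. So if `M` has exactly `k + 1` points then it
is at most the competitiveness `C` of the ordinary `k`-server problem, and if `M` has at least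
`k + 1` points then it is at most `2 C - 1`. -/
theorem result {M : Type u} [MetricSpace M] {k : ℕ} (hk : 2 ≤ k) (x₀ y₀ : Fin k → M)
    (f₀ : Fin k) :
    (delayedB x₀ f₀).competitiveness + 1 ≤ min (2 * (k : ℝ≥0∞)) ((ENat.card M : ℕ∞) : ℝ≥0∞) ∧
    (ENat.card M = k + 1 →
      (delayedB x₀ f₀).competitiveness ≤ (kServer y₀).competitiveness) ∧
    (k + 1 ≤ ENat.card M →
      (delayedB x₀ f₀).competitiveness + 1 ≤ 2 * (kServer y₀).competitiveness) := by
  classical
  have h1 : (delayedB x₀ f₀).competitiveness + 1 ≤ 2 * (k : ℝ≥0∞) := by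
    have hC := Pool.Agent.helper6.DelayedWF.competitive_two_mul hk x₀ f₀
    have h2 : ((((2 * k - 1 : ℕ) : ℝ≥0) : ℝ)) = 2 * (k : ℝ) - 1 := by
      rw [NNReal.coe_natCast, Nat.cast_sub (by omega)]
      push_cast
      ring
    rw [← h2] at hC
    have h3 := OnlineProblem.competitiveness_le
      (Pool.Agent.helper6.DelayedWF.isAlgorithm_alg hk x₀ f₀) _ hC
    have h4 : (delayedB x₀ f₀).competitiveness + 1 ≤ (((2 * k - 1 : ℕ) : ℝ≥0) : ℝ≥0∞) + 1 :=
      add_le_add_left h3 1
    refine h4.trans (le_of_eq ?_)
    have h5 : 2 * k - 1 + 1 = 2 * k := by omega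
    have h6 : ((2 * k - 1 : ℕ) : ℝ≥0∞) + 1 = ((2 * k : ℕ) : ℝ≥0∞) := by
      exact_mod_cast congrArg (fun n : ℕ => (n : ℝ≥0∞)) h5
    rw [ENNReal.coe_natCast, h6]
    push_cast
    rfl
  have h2 : (delayedB x₀ f₀).competitiveness + 1 ≤ ((ENat.card M : ℕ∞) : ℝ≥0∞) := by
    rcases finite_or_infinite M with hfin | hinf
    · have := Fintype.ofFinite M
      have hC := Pool.Agent.helper6.DelayedWF.competitive_card hk x₀ f₀
      have hpos : 0 < Fintype.card M := Fintype.card_pos_iff.2 ⟨x₀ f₀⟩
      have h2 : ((((Fintype.card M - 1 : ℕ) : ℝ≥0) : ℝ)) = (Fintype.card M : ℝ) - 1 := by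
        rw [NNReal.coe_natCast, Nat.cast_sub hpos]
        push_cast
        ring
      rw [← h2] at hC
      have h3 := OnlineProblem.competitiveness_le
        (Pool.Agent.helper6.DelayedWF.isAlgorithm_alg hk x₀ f₀) _ hC
      have h4 : (delayedB x₀ f₀).competitiveness + 1 ≤
          (((Fintype.card M - 1 : ℕ) : ℝ≥0) : ℝ≥0∞) + 1 := add_le_add_left h3 1
      refine h4.trans (le_of_eq ?_)
      have h5 : Fintype.card M - 1 + 1 = Fintype.card M := by omega
      have h6 : ((Fintype.card M - 1 : ℕ) : ℝ≥0∞) + 1 = ((Fintype.card M : ℕ) : ℝ≥0∞) := by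
        exact_mod_cast congrArg (fun n : ℕ => (n : ℝ≥0∞)) h5
      rw [ENNReal.coe_natCast, h6, ENat.card_eq_coe_fintype_card]
      rfl
    · rw [ENat.card_eq_top_of_infinite]
      simp
  refine ⟨le_min h1 h2, ?_, ?_⟩
  · intro hcard
    have hfin : Finite M := by
      rcases finite_or_infinite M with hfin | hinf
      · exact hfin
      · rw [ENat.card_eq_top_of_infinite] at hcard
        exact absurd hcard.symm (by exact_mod_cast ENat.natCast_ne_top (k + 1))
    have := Fintype.ofFinite M
    rw [hcard] at h2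
    have h3 : (delayedB x₀ f₀).competitiveness + 1 ≤ (k : ℝ≥0∞) + 1 := by
      refine h2.trans (le_of_eq ?_)
      push_cast
      rfl
    have h4 : (delayedB x₀ f₀).competitiveness ≤ (k : ℝ≥0∞) :=
      (ENNReal.add_le_add_iff_right ENNReal.one_ne_top).1 h3
    rw [ENat.card_eq_coe_fintype_card] at hcard
    have hcard' : Fintype.card M = k + 1 := by exact_mod_cast hcard
    have e : Fin (k + 1) ≃ M := Fintype.equivOfCardEq (by rw [Fintype.card_fin, hcard'])
    exact h4.trans (le_kServer_competitiveness e e.injective y₀)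
  · intro hle
    obtain ⟨g, hg⟩ : ∃ g : Fin (k + 1) → M, Function.Injective g := by
      rcases finite_or_infinite M with hfin | hinf
      · have := Fintype.ofFinite M
        rw [ENat.card_eq_coe_fintype_card] at hle
        have hle' : k + 1 ≤ Fintype.card M := by exact_mod_cast hle
        obtain ⟨e⟩ := Function.Embedding.nonempty_of_card_le
          (α := Fin (k + 1)) (β := M) (by rw [Fintype.card_fin]; exact hle')
        exact ⟨e, e.injective⟩
      · exact ⟨fun i => Infinite.natEmbedding M i, fun i j hij =>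
          Fin.ext ((Infinite.natEmbedding M).injective hij)⟩
    exact h1.trans (mul_le_mul_right (le_kServer_competitiveness g hg y₀) 2)

end Pool.Agent.Results.MP_836b05_lc.FewPoints
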