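import Mathlib
import Pool.Agent.helper59.DelayedDefs
import Pool.Agent.helper59.DelayedEmbed

open scoped ENNReal NNReal
open Pool.Agent.helper59.DelayedServer

universe u v

namespace Pool.Agent.Results.MP_836b05_lc.NonIsolated

/-- If no point of the image of an isometric embedding `ι : M → N` is isolated in `N`, then
version (b) of the delayed `k`-server problem in `M` has at most the competitiveness of the
ordinary `k`-server problem in `N`. For `N = M` this is the inequality asked for, for every
metric space without isolated points. -/
theorem result {M : Type u} [MetricSpace M] {N : Type v} [MetricSpace N] {k : ℕ} (hk : 2 ≤ k)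
    (ι : M → N) (hι : Isometry ι)
    (hacc : ∀ x : M, ∀ ε > 0, ∃ p : N, p ≠ ι x ∧ dist p (ι x) < ε)
    (x₀ : Fin k → M) (f₀ : Fin k) :
    (delayedB x₀ f₀).competitiveness ≤ (kServer (ι ∘ x₀)).competitiveness :=
  delayedB_le_kServer hk hι hacc x₀ f₀

end Pool.Agent.Results.MP_836b05_lc.NonIsolated
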