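import Mathlib
import Pool.Agent.helper59.DelayedDefs
import Pool.Agent.helper59.DelayedThree
import Pool.Agent.helper59.DelayedLower

open scoped ENNReal NNReal
open Pool.Agent.helper59.DelayedServer

universe u

namespace Pool.Agent.Results.MP_836b05_lc.ThreeServers

/-- The case of three servers, in every metric space: version (b) has competitiveness at most
`3`, and if the space has at least four points then it is at most the competitiveness of the
ordinary three-server problem. -/
theorem result {M : Type u} [MetricSpace M] :
    (∀ (x₀ : Fin 3 → M) (f₀ : Fin 3), (delayedB x₀ f₀).competitiveness ≤ 3) ∧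
    ((∃ g : Fin 4 → M, Function.Injective g) →
      ∀ (x₀ y₀ : Fin 3 → M) (f₀ : Fin 3),
        (delayedB x₀ f₀).competitiveness ≤ (kServer y₀).competitiveness) := by
  refine ⟨fun x₀ f₀ => delayedB_three_le x₀ f₀, ?_⟩
  rintro ⟨g, hg⟩ x₀ y₀ f₀
  have h1 := delayedB_three_le x₀ f₀
  have h2 := le_kServer_competitiveness g hg y₀
  exact h1.trans (by exact_mod_cast h2)

end Pool.Agent.Results.MP_836b05_lc.ThreeServers
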