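import Mathlib
import Pool.Agent.helper59.DelayedDefs
import Pool.Agent.helper59.DelayedRelaxed

open scoped ENNReal NNReal
open Pool.Agent.helper59.DelayedServer

universe u

namespace Pool.Agent.Results.MP_836b05_lc.VersionA

/-- In every metric space and for every `k ≥ 2`, version (a) of the delayed `k`-server problem
has at most the competitiveness of the ordinary `k`-server problem. -/
theorem result {M : Type u} [MetricSpace M] {k : ℕ} (hk : 2 ≤ k)
    (x₀ : Fin k → M) (f₀ : Fin k) :
    (delayedA x₀ f₀).competitiveness ≤ (kServer x₀).competitiveness :=
  delayedA_le_kServer hk x₀ f₀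

end Pool.Agent.Results.MP_836b05_lc.VersionA
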